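import Pool.Agent.Helper53.PF.St

/-! MODULE PRM of project PF. -/

set_option autoImplicit false

open Polynomial

namespace PF.Helper81

theorem holds_PRM : PF.StPRM := by
  intro k _ m hm
  have h1 : Irreducible (X ^ 3 - C m : k[X]) :=
    X_pow_sub_C_irreducible_of_prime Nat.prime_three hm
  have h2 : Prime (C (X ^ 3 - C m) : k[X][X]) := Polynomial.prime_C_iff.2 h1.prime
  have h3 : Prime (Polynomial.Bivariate.swap (R := k) (C (X ^ 3 - C m))) :=
    (MulEquiv.prime_iff (Polynomial.Bivariate.swap (R := k))).2 h2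
  have h4 : Polynomial.Bivariate.swap (R := k) (C (X ^ 3 - C m)) = X ^ 3 - C (C m) := by
    rw [Polynomial.Bivariate.swap_C]
    simp
  rwa [h4] at h3

end PF.Helper81
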